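import Pool.Agent.P.MP_f5d68c_lc.Df

namespace Pool.Agent.P.MP_f5d68c_lc

open Cardinal

universe u

theorem card_le_iff {x : ZFSet.{u}} {c : Cardinal.{u}} : x.card ≤ c ↔ #x ≤ lift.{u + 1} c := by
  rw [ZFSet.cardinalMk_coe_sort, lift_le]

theorem card_le_of_rel {x k : ZFSet.{u}} (r : ZFSet.{u} → ZFSet.{u} → Prop)
    (h : ∀ z ∈ x, ∃ i ∈ k, r i z) (hu : ∀ i ∈ k, ∀ z ∈ x, ∀ z' ∈ x, r i z → r i z' → z = z') :
    x.card ≤ k.card := by
  rw [card_le_iff, ← ZFSet.cardinalMk_coe_sort]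
  choose g hg hr using h
  refine mk_le_of_injective (f := fun z : x => (⟨g z.1 z.2, hg _ _⟩ : k)) fun z z' e => ?_
  have e' : g z.1 z.2 = g z'.1 z'.2 := congrArg Subtype.val e
  exact Subtype.ext (hu _ (hg _ z.2) _ z.2 _ z'.2 (hr _ _) (e' ▸ hr _ z'.2))

theorem card_range_le {I : ZFSet.{u}} (f : I → ZFSet.{u}) : (ZFSet.range f).card ≤ I.card := by
  refine card_le_iff.2 ?_
  have := ZFSet.lift_card_range_le (f := f)
  rw [ZFSet.cardinalMk_coe_sort] at this ⊢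
  simpa using this

theorem card_iUnion_le {ι : Type (u + 1)} [Small.{u} ι] {κ : Cardinal.{u}} (hκ : ℵ₀ ≤ κ)
    (f : ι → ZFSet.{u}) (hι : #ι ≤ lift.{u + 1} κ) (hf : ∀ i, (f i).card ≤ κ) :
    (ZFSet.iUnion f).card ≤ κ := by
  have h := ZFSet.lift_card_iUnion_le_sum_card (f := f)
  have h2 : (sum fun i => (f i).card) ≤ sum fun _ : ι => κ := sum_le_sum _ _ hf
  rw [sum_const] at h2
  have h3 : lift.{u} #ι * lift.{u + 1} κ ≤ lift.{u + 1} κ := by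
    have : ℵ₀ ≤ lift.{u + 1} κ := by simpa using hκ
    rw [lift_id'.{u, u + 1}]
    exact (mul_le_mul' hι le_rfl).trans (mul_eq_self this).le
  exact lift_le.1 (h.trans (h2.trans h3))

theorem card_le_of_cover {U I : ZFSet.{u}} {κ : Cardinal.{u}} (hκ : ℵ₀ ≤ κ)
    (g : ∀ i ∈ I, ZFSet.{u}) (hI : I.card ≤ κ) (hg : ∀ i hi, (g i hi).card ≤ κ)
    (h : ∀ z ∈ U, ∃ i hi, z ∈ g i hi) : U.card ≤ κ := by
  refine le_trans (ZFSet.card_mono (y := ZFSet.iUnion fun i : I => g i.1 i.2) fun z hz => ?_)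
    (card_iUnion_le hκ _ (card_le_iff.1 hI) fun i => hg _ _)
  obtain ⟨i, hi, hz⟩ := h z hz
  exact ZFSet.mem_iUnion.2 ⟨⟨i, hi⟩, hz⟩

theorem card_union_le' {x y : ZFSet.{u}} {κ : Cardinal.{u}} (hκ : ℵ₀ ≤ κ) (hx : x.card ≤ κ)
    (hy : y.card ≤ κ) : (x ∪ y).card ≤ κ :=
  ZFSet.card_union_le.trans ((add_le_add hx hy).trans (add_eq_self hκ).le)

/-- fewer than `cof` many bounds have a common bound -/
theorem exists_bound {s : ZFSet.{u}} {a : Ordinal.{u}} (hs : s.card < a.cof)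
    (g : ∀ z ∈ s, Ordinal.{u}) (hg : ∀ z hz, g z hz < a) : ∃ b < a, ∀ z hz, g z hz ≤ b := by
  let f : Shrink.{u} s → Ordinal.{u} := fun i => g _ ((equivShrink s).symm i).2
  refine ⟨iSup f, Ordinal.iSup_lt_of_lt_cof hs fun i => hg _ _, fun z hz => ?_⟩
  have := Ordinal.le_iSup f (equivShrink s ⟨z, hz⟩)
  simpa [f] using this

theorem exists_subset_card {e : ZFSet.{u}} {c : Cardinal.{u}} (h : c ≤ e.card) :
    ∃ e', e' ⊆ e ∧ e'.card = c := by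
  have h' : lift.{u + 1} c ≤ #(e : Set ZFSet.{u}) := by
    rw [show #(e : Set ZFSet.{u}) = #e from rfl, ZFSet.cardinalMk_coe_sort, lift_le]
    exact h
  obtain ⟨p, hp, hc⟩ := le_mk_iff_exists_subset.1 h'
  refine ⟨ZFSet.sep (· ∈ p) e, fun z hz => (ZFSet.mem_sep.1 hz).1, ?_⟩
  rw [← lift_inj.{u, u + 1}, ← ZFSet.cardinalMk_coe_sort, ← hc]
  refine mk_congr (Equiv.subtypeEquivRight fun z => ?_)
  rw [ZFSet.mem_sep]
  exact ⟨fun h => h.2, fun h => ⟨hp h, h⟩⟩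

/-- the union of a chain of length `κ` closed under `G` -/
theorem chain {κ : Cardinal.{u}} (hκ : κ.IsRegular) (a x : ZFSet.{u}) (G : ZFSet.{u} → ZFSet.{u})
    (hG : ∀ S, S ⊆ a → S.card ≤ κ → S ⊆ G S ∧ G S ⊆ a ∧ (G S).card ≤ κ) (hx : x ⊆ a)
    (hc : x.card ≤ κ) : ∃ B, x ⊆ B ∧ B ⊆ a ∧ B.card ≤ κ ∧
      ∀ s, s ⊆ B → s.card < κ → ∃ S, s ⊆ S ∧ S ⊆ a ∧ S.card ≤ κ ∧ G S ⊆ B := by
  let F : Ordinal.{u} → ZFSet.{u} := Ordinal.lt_wf.fix fun η rec =>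
    G (x ∪ ZFSet.iUnion fun ζ : Set.Iio η => rec ζ.1 ζ.2)
  let S : Ordinal.{u} → ZFSet.{u} := fun η => x ∪ ZFSet.iUnion fun ζ : Set.Iio η => F ζ.1
  have hF : ∀ η, F η = G (S η) := fun η => Ordinal.lt_wf.fix_eq _ η
  have hS : ∀ η ≤ κ.ord, S η ⊆ a ∧ (S η).card ≤ κ := by
    intro η
    induction η using WellFoundedLT.induction with
    | ind η ih =>
      intro hη
      have : ∀ ζ : Set.Iio η, F ζ.1 ⊆ a ∧ (F ζ.1).card ≤ κ := fun ζ => by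
        have := ih ζ.1 ζ.2 (ζ.2.le.trans hη)
        rw [hF]
        exact (hG _ this.1 this.2).2
      refine ⟨fun z hz => ?_, card_union_le' hκ.aleph0_le hc
        (card_iUnion_le hκ.aleph0_le _ ?_ fun ζ => (this ζ).2)⟩
      · rcases ZFSet.mem_union.1 hz with hz | hz
        · exact hx hz
        · obtain ⟨ζ, hz⟩ := ZFSet.mem_iUnion.1 hz
          exact (this ζ).1 hz
      · rw [Cardinal.mk_Iio_ordinal, lift_le]
        simpa using Ordinal.card_le_card hη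
  have hlim := isSuccLimit_ord hκ.aleph0_le
  refine ⟨S κ.ord, fun z hz => ZFSet.mem_union.2 (Or.inl hz), (hS _ le_rfl).1, (hS _ le_rfl).2,
    fun s hs hsc => ?_⟩
  have h1 : ∀ z ∈ s, ∃ η < κ.ord, z ∈ x ∨ z ∈ F η := fun z hz => by
    rcases ZFSet.mem_union.1 (hs hz) with hz | hz
    · exact ⟨0, hlim.pos, Or.inl hz⟩
    · obtain ⟨ζ, hz⟩ := ZFSet.mem_iUnion.1 hz
      exact ⟨ζ.1, ζ.2, Or.inr hz⟩
  choose g hg hz using h1
  obtain ⟨b, hb, hgb⟩ := exists_bound (by rwa [hκ.cof_ord]) g hg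
  have hb' := hlim.succ_lt hb
  refine ⟨S (Order.succ b), fun z h => ?_, (hS _ hb'.le).1, (hS _ hb'.le).2, fun z h => ?_⟩
  · refine ZFSet.mem_union.2 ((hz z h).imp id fun h' => ?_)
    exact ZFSet.mem_iUnion.2 ⟨⟨g z h, Order.lt_succ_of_le (hgb z h)⟩, h'⟩
  · refine ZFSet.mem_union.2 (Or.inr (ZFSet.mem_iUnion.2 ⟨⟨_, hb'⟩, ?_⟩))
    rwa [hF]

end Pool.Agent.P.MP_f5d68c_lc
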