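import Pool.Agent.P.MP_f5d68c_lc.Ctx

namespace Pool.Agent.P.MP_f5d68c_lc

open Cardinal Order

universe u

variable {R A M R' : Set ZFSet.{u}} {μ δ κ : Cardinal.{u}}

/-- every subset of `α` of size at most `κ` is covered by such a set in `M` -/
def Cov (M : Set ZFSet.{u}) (κ : Cardinal.{u}) (α : Ordinal.{u}) : Prop :=
  ∀ x, x ⊆ α.toZFSet → x.card ≤ κ → ∃ Z ∈ M, x ⊆ Z ∧ Z ⊆ α.toZFSet ∧ Z.card ≤ κ

/-- `B` is the `w`-least member of `F` that contains `D ∩ b` -/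
def Lst (F w D b B : ZFSet.{u}) : Prop :=
  (∀ z ∈ D, z ∈ b → z ∈ B) ∧ ∀ B' ∈ F, (∀ z ∈ D, z ∈ b → z ∈ B') → ZFSet.pair B B' ∈ w

theorem Df.cut (hR : Tr R) (i j k : ℕ) : Df R A fun v => ∀ z ∈ v i, z ∈ v j → z ∈ v k :=
  Df.ball hR i (S := fun z v => z ∈ v j → z ∈ v k) ((Df.mem 0 (j + 1)).imp (Df.mem 0 (k + 1)))

theorem Df.lst (hR : Tr R) (i j k l m : ℕ) : Df R A fun v => Lst (v i) (v j) (v k) (v l) (v m) :=
  (Df.cut hR k l m).and (Df.ball hR i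
    (S := fun B' v => (∀ z ∈ v k, z ∈ v l → z ∈ B') → ZFSet.pair (v m) B' ∈ v j)
    ((Df.cut hR (k + 1) (l + 1) 0).imp (Df.pmem hR (m + 1) 0 (j + 1))))

/-- `F` is a family of small subsets of `a`, cofinal among the bounded ones, well-ordered by `w` -/
def Fam (R : Set ZFSet.{u}) (a k F w : ZFSet.{u}) : Prop :=
  (∀ B ∈ F, B ⊆ a ∧ Le R k B) ∧
  (∀ x ∈ R, (∃ b ∈ a, x ⊆ b) → Le R k x → ∃ B ∈ F, x ⊆ B) ∧
  (∀ S ∈ R, S ⊆ F → (∃ B ∈ S, B = B) → ∃ B ∈ S, ∀ B' ∈ S, ZFSet.pair B B' ∈ w) ∧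
  ∀ B ∈ F, ∀ B' ∈ F, ZFSet.pair B B' ∈ w → ZFSet.pair B' B ∈ w → B = B'

theorem Df.fam (hR : Tr R) (i j k l : ℕ) : Df R A fun v => Fam R (v i) (v j) (v k) (v l) :=
  (Df.ball hR k (S := fun B v => B ⊆ v i ∧ Le R (v j) B)
    ((Df.sub hR 0 (i + 1)).and (Df.le hR (j + 1) 0))).and
  ((Df.all (S := fun x v => (∃ b ∈ v i, x ⊆ b) → Le R (v j) x → ∃ B ∈ v k, x ⊆ B)
    ((Df.bex hR (i + 1) (S := fun b w => w 0 ⊆ b) (Df.sub hR 1 0)).imp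
      ((Df.le hR (j + 1) 0).imp (Df.bex hR (k + 1) (S := fun B w => w 0 ⊆ B) (Df.sub hR 1 0))))).and
  ((Df.all (S := fun S v => S ⊆ v k → (∃ B ∈ S, B = B) →
      ∃ B ∈ S, ∀ B' ∈ S, ZFSet.pair B B' ∈ v l)
    ((Df.sub hR 0 (k + 1)).imp ((Df.bex hR 0 (S := fun B _ => B = B) (Df.eq 0 0)).imp
      (Df.bex hR 0 (S := fun B w => ∀ B' ∈ w 0, ZFSet.pair B B' ∈ w (l + 1))
        (Df.ball hR 1 (S := fun B' w => ZFSet.pair (w 0) B' ∈ w (l + 2))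
          (Df.pmem hR 1 0 (l + 3))))))).and
  (Df.ball hR k (S := fun B v => ∀ B' ∈ v k,
      ZFSet.pair B B' ∈ v l → ZFSet.pair B' B ∈ v l → B = B')
    (Df.ball hR (k + 1) (S := fun B' w =>
        ZFSet.pair (w 0) B' ∈ w (l + 1) → ZFSet.pair B' (w 0) ∈ w (l + 1) → w 0 = B')
      ((Df.pmem hR 1 0 (l + 2)).imp ((Df.pmem hR 0 1 (l + 2)).imp (Df.eq 1 0)))))))

theorem osub {α β : Ordinal.{u}} (h : α ≤ β) : α.toZFSet ⊆ β.toZFSet :=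
  Ordinal.toZFSet_subset_toZFSet_iff.2 h

theorem omem {α β : Ordinal.{u}} : α.toZFSet ∈ β.toZFSet ↔ α < β :=
  Ordinal.toZFSet_mem_toZFSet_iff

namespace Ctx

variable (c : Ctx M R A R' μ)
include c

theorem ord_sub {α : Ordinal.{u}} (h : α < (succ μ).ord) (hα : α.toZFSet ∈ M) :
    ∀ z ∈ α.toZFSet, z ∈ M := fun z hz => by
  obtain ⟨β, hβ, rfl⟩ := Ordinal.mem_toZFSet_iff.1 hz
  exact c.sub_of_ord h hα β hβ

/-- a small set whose initial segments are in `M` -/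
theorem exists_chain (hg : Guessing δ M R) (hκ : κ.IsRegular) (hδ : δ ≤ κ) {α : Ordinal.{u}}
    (hα : α ≤ (succ μ).ord) (hM : ∀ β < α, β.toZFSet ∈ M) (ih : ∀ β < α, Cov M κ β)
    {x : ZFSet.{u}} (hx : x ⊆ α.toZFSet) (hc : x.card ≤ κ)
    (hu : ∀ β < α, ∃ ξ, β ≤ ξ ∧ ξ.toZFSet ∈ x) :
    ∃ B, x ⊆ B ∧ B ⊆ α.toZFSet ∧ B.card ≤ κ ∧ ∀ β < α, B ∩ β.toZFSet ∈ M := by
  classical
  have h1 : ∀ S : ZFSet.{u}, ∀ i ∈ x, S.card ≤ κ →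
      ∃ Z ∈ M, S ∩ i ⊆ Z ∧ Z ⊆ i ∧ Z.card ≤ κ := fun S i hi hS => by
    obtain ⟨β, hβ, rfl⟩ := Ordinal.mem_toZFSet_iff.1 (hx hi)
    exact ih β hβ _ (fun z hz => (ZFSet.mem_inter.1 hz).2)
      ((ZFSet.card_mono fun z hz => (ZFSet.mem_inter.1 hz).1).trans hS)
  choose g hgM hg1 hg2 hg3 using h1
  let G : ZFSet.{u} → ZFSet.{u} := fun S =>
    if h : S.card ≤ κ then S ∪ ZFSet.iUnion fun i : x => g S i.1 i.2 h else S
  have hG : ∀ S (h : S.card ≤ κ), G S = S ∪ ZFSet.iUnion fun i : x => g S i.1 i.2 h :=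
    fun S h => dif_pos h
  obtain ⟨B, hB1, hB2, hB3, hB4⟩ := chain hκ α.toZFSet x G (fun S hS h => by
    rw [hG S h]
    refine ⟨fun z hz => ZFSet.mem_union.2 (Or.inl hz), fun z hz => ?_,
      card_union_le' hκ.aleph0_le h (card_iUnion_le hκ.aleph0_le _ (card_le_iff.1 hc)
        fun i => hg3 _ _ _ _)⟩
    rcases ZFSet.mem_union.1 hz with hz | hz
    · exact hS hz
    · obtain ⟨i, hz⟩ := ZFSet.mem_iUnion.1 hz
      exact (ZFSet.isOrdinal_toZFSet α).mem_trans (hg2 _ _ _ _ hz) (hx i.2)) hx hc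
  refine ⟨B, hB1, hB2, hB3, fun β hβ => ?_⟩
  obtain ⟨ξ, hξ, hξx⟩ := hu β hβ
  have hξα : ξ < α := omem.1 (hx hξx)
  have hξM := hM ξ hξα
  have hsub := c.ord_sub (hξα.trans_le hα) hξM
  obtain ⟨e, he, heX, hee⟩ := hg _ hξM (B ∩ ξ.toZFSet)
    (c.sub _ (c.elem.sub hξM) _ fun z hz => (ZFSet.mem_inter.1 hz).2)
    (fun z hz => (ZFSet.mem_inter.1 hz).2) fun Z hZ hZc => by
      obtain ⟨S, hS1, -, hS3, hS4⟩ := hB4 (B ∩ ξ.toZFSet ∩ Z)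
        (fun z hz => (ZFSet.mem_inter.1 (ZFSet.mem_inter.1 hz).1).1)
        ((ZFSet.card_mono fun z hz => (ZFSet.mem_inter.1 hz).2).trans_lt (hZc.trans_le hδ))
      have : B ∩ ξ.toZFSet ∩ Z = g S _ hξx hS3 ∩ Z := by
        ext z
        constructor
        · intro hz
          exact ZFSet.mem_inter.2 ⟨hg1 _ _ _ _ (ZFSet.mem_inter.2 ⟨hS1 hz,
            (ZFSet.mem_inter.1 (ZFSet.mem_inter.1 hz).1).2⟩), (ZFSet.mem_inter.1 hz).2⟩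
        · intro hz
          rw [ZFSet.mem_inter] at hz
          refine ZFSet.mem_inter.2 ⟨ZFSet.mem_inter.2 ⟨hS4 ?_, hg2 _ _ _ _ hz.1⟩, hz.2⟩
          rw [hG S hS3]
          exact ZFSet.mem_union.2 (Or.inr (ZFSet.mem_iUnion.2 ⟨⟨_, hξx⟩, hz.1⟩))
      rw [this]
      exact c.inter_mem (hgM _ _ _ _) hZ
  have : B ∩ β.toZFSet = e ∩ β.toZFSet := by
    ext z
    rw [ZFSet.mem_inter, ZFSet.mem_inter]
    refine and_congr_left fun hz => ?_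
    rw [← hee z (hsub z (osub hξ hz)), ZFSet.mem_inter]
    exact ⟨fun h => ⟨h, osub hξ hz⟩, fun h => h.1⟩
  rw [this]
  exact c.inter_mem he (hM β hβ)

theorem sub_mem' {α : Ordinal.{u}} (h : α < (succ μ).ord) {x : ZFSet.{u}} (hx : x ⊆ α.toZFSet) :
    (∀ z ∈ x, z ∈ R') ∧ x ∈ R' :=
  have h1 : ∀ z ∈ x, z ∈ R' := fun _ hz => c.mem_lam' (osub h.le (hx hz))
  ⟨h1, c.cl _ ((ZFSet.card_mono hx).trans (card_le_of_lt h)) h1⟩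

theorem exists_fam (hκ : κ ≤ μ) {α : Ordinal.{u}} (hα : α < (succ μ).ord) (hM : α.toZFSet ∈ M)
    (hF : ∀ F : ZFSet.{u}, (∀ B ∈ F, B ⊆ α.toZFSet ∧ B ∈ M) → F ∈ R ∧ F.prod F ∈ R)
    (ih : ∀ β < α, Cov M κ β) : ∃ F ∈ M, ∃ w ∈ M, Fam R α.toZFSet κ.ord.toZFSet F w := by
  have hv : ∀ i, cs α.toZFSet (fun _ => κ.ord.toZFSet) i ∈ M := cs_mem hM fun _ => (c.ord_mem hκ).1
  let F := ZFSet.sep (fun B => B ∈ M ∧ B.card ≤ κ) α.toZFSet.powerset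
  have hmem : ∀ B, B ∈ F ↔ B ⊆ α.toZFSet ∧ B ∈ M ∧ B.card ≤ κ := fun B => by
    rw [ZFSet.mem_sep, ZFSet.mem_powerset]
  obtain ⟨h1, h2⟩ := hF F fun B hB => ⟨((hmem B).1 hB).1, ((hmem B).1 hB).2.1⟩
  let w := ZFSet.sep (fun p => ∃ B B', p = ZFSet.pair B B' ∧ ¬ WellOrderingRel B' B) (F.prod F)
  have hw : ∀ B ∈ F, ∀ B' ∈ F, ZFSet.pair B B' ∈ w ↔ ¬ WellOrderingRel B' B := fun B hB B' hB' => by
    rw [ZFSet.mem_sep, ZFSet.pair_mem_prod]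
    refine ⟨?_, fun h => ⟨⟨hB, hB'⟩, B, B', rfl, h⟩⟩
    rintro ⟨-, a, b, e, h⟩
    rw [ZFSet.pair_inj] at e
    rwa [e.1, e.2]
  obtain ⟨F', hF', h⟩ := c.elem.tv (S := fun F v => ∃ w ∈ R, Fam R (v 0) (v 1) F w)
    (Df.ex (S := fun w v => Fam R (v 1) (v 2) (v 0) w) (Df.fam c.tr 2 3 1 0)) hv
    ⟨F, h1, w, c.sub _ h2 _ fun z hz => (ZFSet.mem_sep.1 hz).1, fun B hB => by
      rw [hmem] at hB
      exact ⟨hB.1, (c.le_ord hκ (c.sub_mem' hα hB.1).1).2 hB.2.2⟩, fun x _ hb hl => by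
      obtain ⟨b, hb, hx⟩ := hb
      obtain ⟨β, hβ, rfl⟩ := Ordinal.mem_toZFSet_iff.1 hb
      obtain ⟨Z, hZ, hZ1, hZ2, hZ3⟩ := ih β hβ x hx
        ((c.le_ord hκ (c.sub_mem' (hβ.trans hα) hx).1).1 hl)
      exact ⟨Z, (hmem Z).2 ⟨hZ2.trans (osub hβ.le), hZ, hZ3⟩, hZ1⟩, fun S _ hS hne => by
      obtain ⟨B₀, hB₀, -⟩ := hne
      obtain ⟨B, hB, hmin⟩ := (IsWellFounded.wf (r := (WellOrderingRel : ZFSet.{u} → _))).has_min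
        {B | B ∈ S} ⟨B₀, hB₀⟩
      exact ⟨B, hB, fun B' hB' => (hw B (hS hB) B' (hS hB')).2 (hmin B' hB')⟩,
      fun B hB B' hB' h h' => by
      rw [hw _ hB _ hB'] at h
      rw [hw _ hB' _ hB] at h'
      rcases trichotomous_of WellOrderingRel B B' with e | e | e
      · exact (h' e).elim
      · exact e
      · exact (h e).elim⟩
  obtain ⟨w', hw', h'⟩ := c.elem.tv (S := fun w v => Fam R (v 1) (v 2) (v 0) w)
    (Df.fam c.tr 2 3 1 0) (cs_mem hF' hv) h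
  exact ⟨F', hF', w', hw', h'⟩

theorem union_mem {a Z : ZFSet.{u}} (ha : a ∈ M) (hZ : Z ∈ M) :
    ZFSet.sep (fun z => ∃ B ∈ Z, z ∈ B) a ∈ M :=
  c.sep_mem (S := fun z v => ∃ B ∈ v 1, z ∈ B)
    (Df.bex c.tr 2 (S := fun B w => w 0 ∈ B) (Df.mem 1 0)) (v := cs a fun _ => Z)
    (cs_mem ha fun _ => hZ) 0

/-- a small set all of whose proper initial segments are in `M` is covered -/
theorem cover_of_chain (hg : Guessing δ M R) (hκ : ℵ₀ ≤ κ) (hδ : δ ≤ κ) (hκμ : κ < μ)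
    {α : Ordinal.{u}} (hα : α < (succ μ).ord) (hM : α.toZFSet ∈ M) (hl : IsSuccLimit α)
    {F w : ZFSet.{u}} (hF : F ∈ M) (hw : w ∈ M) (h : Fam R α.toZFSet κ.ord.toZFSet F w)
    {B : ZFSet.{u}} (hB : B ⊆ α.toZFSet) (hc : B.card ≤ κ)
    (hu : ∀ β < α, ∃ ξ, β ≤ ξ ∧ ξ.toZFSet ∈ B) (hi : ∀ β < α, B ∩ β.toZFSet ∈ M) :
    ∃ Z ∈ M, B ⊆ Z ∧ Z ⊆ α.toZFSet ∧ Z.card ≤ κ := by
  obtain ⟨h1, h2, h3, h4⟩ := h
  have hFR := c.elem.sub hF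
  have hF1 : ∀ C ∈ F, C ∈ R' := fun C hC => (c.sub_mem' hα (h1 C hC).1).2
  have hF2 : ∀ C ∈ F, C.card ≤ κ := fun C hC =>
    (c.le_ord hκμ.le (c.sub_mem' hα (h1 C hC).1).1).1 (h1 C hC).2
  have hun : ∀ Z ∈ M, Z ⊆ F → Z.card ≤ κ → (∀ z ∈ B, ∃ C ∈ Z, z ∈ C) →
      ∃ Z ∈ M, B ⊆ Z ∧ Z ⊆ α.toZFSet ∧ Z.card ≤ κ := fun Z hZ hZF hZc hcov =>
    ⟨_, c.union_mem hM hZ, fun z hz => ZFSet.mem_sep.2 ⟨hB hz, hcov z hz⟩,
      fun z hz => (ZFSet.mem_sep.1 hz).1, card_le_of_cover hκ (fun C _ => C) hZc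
        (fun C hC => hF2 C (hZF hC)) fun z hz => by
          obtain ⟨C, hC, hz⟩ := (ZFSet.mem_sep.1 hz).2
          exact ⟨C, hC, hz⟩⟩
  have huniq : ∀ b, ∀ C ∈ F, ∀ C' ∈ F, Lst F w B b C → Lst F w B b C' → C = C' :=
    fun b C hC C' hC' e e' => h4 C hC C' hC' (e.2 C' hC' e'.1) (e'.2 C hC e.1)
  have hcut : ∀ β₀ β : Ordinal.{u}, β ≤ β₀ → ∀ C,
      Lst F w (B ∩ β₀.toZFSet) β.toZFSet C ↔ Lst F w B β.toZFSet C := fun β₀ β hβ C => by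
    have : ∀ C' : ZFSet.{u}, (∀ z ∈ B ∩ β₀.toZFSet, z ∈ β.toZFSet → z ∈ C') ↔
        ∀ z ∈ B, z ∈ β.toZFSet → z ∈ C' := fun C' =>
      ⟨fun h z hz hz' => h z (ZFSet.mem_inter.2 ⟨hz, osub hβ hz'⟩) hz',
        fun h z hz hz' => h z (ZFSet.mem_inter.1 hz).1 hz'⟩
    simp only [Lst, this]
  have hex : ∀ β < α, ∃ C ∈ M, C ∈ F ∧ Lst F w B β.toZFSet C := fun β hβ => by
    have hs : B ∩ β.toZFSet ⊆ β.toZFSet := fun z hz => (ZFSet.mem_inter.1 hz).2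
    obtain ⟨C₀, hC₀, hC₀'⟩ := h2 _ (c.elem.sub (hi β hβ)) ⟨_, omem.2 hβ, hs⟩
      ((c.le_ord hκμ.le (c.sub_mem' (hβ.trans hα) hs).1).2
        ((ZFSet.card_mono fun z hz => (ZFSet.mem_inter.1 hz).1).trans hc))
    obtain ⟨C, hC, hmin⟩ := h3 (ZFSet.sep (fun C => ∀ z ∈ B, z ∈ β.toZFSet → z ∈ C) F)
      (c.sub _ hFR _ fun z hz => (ZFSet.mem_sep.1 hz).1) (fun z hz => (ZFSet.mem_sep.1 hz).1)
      ⟨C₀, ZFSet.mem_sep.2 ⟨hC₀, fun z hz hz' => hC₀' (ZFSet.mem_inter.2 ⟨hz, hz'⟩)⟩, rfl⟩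
    rw [ZFSet.mem_sep] at hC
    obtain ⟨C', hC', hh⟩ := c.elem.tv (S := fun C v => C ∈ v 0 ∧ Lst (v 0) (v 1) (v 2) (v 3) C)
      ((Df.mem 0 1).and (Df.lst c.tr 1 2 3 4 0))
      (v := cs F (cs w (cs (B ∩ β.toZFSet) fun _ => β.toZFSet)))
      (cs_mem hF (cs_mem hw (cs_mem (hi β hβ) fun _ => c.sub_of_ord hα hM β hβ)))
      ⟨C, c.tr _ hFR _ hC.1, hC.1, (hcut β β le_rfl C).2
        ⟨hC.2, fun C' h h' => hmin C' (ZFSet.mem_sep.2 ⟨h, h'⟩)⟩⟩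
    exact ⟨C', hC', hh.1, (hcut β β le_rfl C').1 hh.2⟩
  let y := ZFSet.sep (fun C => ∃ b ∈ B, Lst F w B b C) F
  have hyc : y.card ≤ κ := (card_le_of_rel (fun b C => Lst F w B b C)
    (fun C hC => (ZFSet.mem_sep.1 hC).2) fun b _ C hC C' hC' =>
      huniq b C (ZFSet.mem_sep.1 hC).1 C' (ZFSet.mem_sep.1 hC').1).trans hc
  by_contra hn
  obtain ⟨e, he, heF, hee⟩ := hg F hF y (c.sub _ hFR _ fun z hz => (ZFSet.mem_sep.1 hz).1)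
    (fun z hz => (ZFSet.mem_sep.1 hz).1) fun Z hZ hZc => by
      by_cases hb : ∃ β₀ < α, ∀ β : Ordinal.{u}, β.toZFSet ∈ B → ∀ C ∈ F,
          Lst F w B β.toZFSet C → C ∈ Z → β < β₀
      · obtain ⟨β₀, hβ₀, hb⟩ := hb
        have hm := c.sep_mem (S := fun C v => ∃ b ∈ v 2, Lst (v 0) (v 1) (v 2) b C)
          (Df.bex c.tr 3 (S := fun b w => Lst (w 1) (w 2) (w 3) b (w 0)) (Df.lst c.tr 2 3 4 0 1))
          (v := cs F (cs w fun _ => B ∩ β₀.toZFSet)) (cs_mem hF (cs_mem hw fun _ => hi β₀ hβ₀)) 0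
        have : y ∩ Z = ZFSet.sep (fun C => ∃ b ∈ B ∩ β₀.toZFSet,
            Lst F w (B ∩ β₀.toZFSet) b C) F ∩ Z := by
          ext C
          rw [ZFSet.mem_inter, ZFSet.mem_inter, ZFSet.mem_sep, ZFSet.mem_sep]
          refine and_congr_left fun hCZ => and_congr_right fun hCF => ⟨?_, ?_⟩
          · rintro ⟨b, hbB, hL⟩
            obtain ⟨β, -, rfl⟩ := Ordinal.mem_toZFSet_iff.1 (hB hbB)
            have := hb β hbB C hCF hL hCZ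
            exact ⟨_, ZFSet.mem_inter.2 ⟨hbB, omem.2 this⟩, (hcut β₀ β this.le C).2 hL⟩
          · rintro ⟨b, hbB, hL⟩
            rw [ZFSet.mem_inter] at hbB
            obtain ⟨β, hβ, rfl⟩ := Ordinal.mem_toZFSet_iff.1 hbB.2
            exact ⟨_, hbB.1, (hcut β₀ β hβ.le C).1 hL⟩
        rw [this]
        exact c.inter_mem hm hZ
      · push Not at hb
        refine (hn (hun (Z ∩ F) (c.inter_mem hZ hF) (fun z hz => (ZFSet.mem_inter.1 hz).2)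
          ((ZFSet.card_mono fun z hz => (ZFSet.mem_inter.1 hz).1).trans (hZc.le.trans hδ))
          fun z hz => ?_)).elim
        obtain ⟨ζ, hζ, rfl⟩ := Ordinal.mem_toZFSet_iff.1 (hB hz)
        obtain ⟨β, -, C, hC, hL, hCZ, hle⟩ := hb _ (hl.succ_lt hζ)
        exact ⟨C, ZFSet.mem_inter.2 ⟨hCZ, hC⟩, hL.1 _ hz (omem.2 (succ_le_iff.1 hle))⟩
  refine hn (hun e he heF (c.card_le_of_trace hκμ he (fun z hz => hF1 z (heF hz)) hyc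
    fun z hz h => (hee z hz).2 h) fun z hz => ?_)
  obtain ⟨ζ, hζ, rfl⟩ := Ordinal.mem_toZFSet_iff.1 (hB hz)
  obtain ⟨ξ, hξ, hξB⟩ := hu _ (hl.succ_lt hζ)
  obtain ⟨C, hCM, hCF, hL⟩ := hex ξ (omem.1 (hB hξB))
  exact ⟨C, (hee C hCM).1 (ZFSet.mem_sep.2 ⟨hCF, _, hξB, hL⟩),
    hL.1 _ hz (omem.2 (succ_le_iff.1 hξ))⟩

/-- the covering property below `M ∩ μ⁺` -/
theorem cov (hg : Guessing δ M R) (hκ : κ.IsRegular) (hδ : δ ≤ κ) (hκμ : κ < μ)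
    (hF : ∀ α < (succ μ).ord, ∀ F : ZFSet.{u}, (∀ B ∈ F, B ⊆ α.toZFSet ∧ B ∈ M) →
      F ∈ R ∧ F.prod F ∈ R) {α : Ordinal.{u}} (hα : α < (succ μ).ord) (hM : α.toZFSet ∈ M) :
    Cov M κ α := by
  induction α using WellFoundedLT.induction with
  | ind α ih =>
    have hM' := c.sub_of_ord hα hM
    have ih' : ∀ β < α, Cov M κ β := fun β hβ => ih β hβ (hβ.trans hα) (hM' β hβ)
    intro x hx hc
    rcases Ordinal.zero_or_succ_or_isSuccLimit α with rfl | ⟨β, rfl⟩ | hl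
    · exact ⟨_, hM, hx, subset_rfl, by simp⟩
    · obtain ⟨Z, hZ, h1, h2, h3⟩ := ih' β (lt_succ β) (x ∩ β.toZFSet)
        (fun z hz => (ZFSet.mem_inter.1 hz).2)
        ((ZFSet.card_mono fun z hz => (ZFSet.mem_inter.1 hz).1).trans hc)
      refine ⟨_, c.sep_mem (S := fun z v => z ∈ v 1 ∨ z = v 2) ((Df.mem 0 2).or (Df.eq 0 3))
        (v := cs (succ β).toZFSet (cs Z fun _ => β.toZFSet))
        (cs_mem hM (cs_mem hZ fun _ => hM' β (lt_succ β))) 0, fun z hz => ?_,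
        fun z hz => (ZFSet.mem_sep.1 hz).1, ?_⟩
      · refine ZFSet.mem_sep.2 ⟨hx hz, ?_⟩
        have := hx hz
        rw [succ_eq_add_one, Ordinal.toZFSet_add_one, ZFSet.mem_insert_iff] at this
        exact this.symm.imp (fun h => h1 (ZFSet.mem_inter.2 ⟨hz, h⟩)) id
      · refine le_trans (ZFSet.card_mono (y := insert β.toZFSet Z) fun z hz => ?_)
          (ZFSet.card_insert_le.trans (add_le_of_le hκ.aleph0_le h3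
            (one_le_aleph0.trans hκ.aleph0_le)))
        exact ZFSet.mem_insert_iff.2 (ZFSet.mem_sep.1 hz).2.symm
    · by_cases hu : ∀ β < α, ∃ ξ, β ≤ ξ ∧ ξ.toZFSet ∈ x
      · obtain ⟨B, h1, h2, h3, h4⟩ := c.exists_chain hg hκ hδ hα.le hM' ih' hx hc hu
        obtain ⟨F, hFM, w, hw, h⟩ := c.exists_fam hκμ.le hα hM (hF α hα) ih'
        obtain ⟨Z, hZ, h5, h6⟩ := c.cover_of_chain hg hκ.aleph0_le hδ hκμ hα hM hl hFM hw h h2 h3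
          (fun β hβ => (hu β hβ).imp fun ξ h => ⟨h.1, h1 h.2⟩) h4
        exact ⟨Z, hZ, h1.trans h5, h6⟩
      · push Not at hu
        obtain ⟨β, hβ, hu⟩ := hu
        obtain ⟨Z, hZ, h1, h2, h3⟩ := ih' β hβ x (fun z hz => by
          obtain ⟨ξ, -, rfl⟩ := Ordinal.mem_toZFSet_iff.1 (hx hz)
          exact omem.2 (not_le.1 fun h => hu ξ h hz)) hc
        exact ⟨Z, hZ, h1, h2.trans (osub hβ.le), h3⟩

/-- `M ∩ μ⁺` has large cofinality -/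
theorem lt_cof (hg : Guessing δ M R) (hκ : κ.IsRegular) (hδ : δ ≤ κ) (hκμ : κ < μ)
    (hF : ∀ α < (succ μ).ord, ∀ F : ZFSet.{u}, (∀ B ∈ F, B ⊆ α.toZFSet ∧ B ∈ M) →
      F ∈ R ∧ F.prod F ∈ R) {γ : Ordinal.{u}} (hγ : γ < (succ μ).ord)
    (h1 : ∀ β < γ, β.toZFSet ∈ M) (h2 : ∀ β < (succ μ).ord, β.toZFSet ∈ M → β < γ) :
    κ < γ.cof := by
  by_contra hn
  obtain ⟨s, hs, hsc⟩ := Order.exists_cof_eq (Set.Iio γ)
  let x := ZFSet.range fun i : s => i.1.1.toZFSet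
  have hx : x ⊆ γ.toZFSet := fun z hz => by
    obtain ⟨i, rfl⟩ := ZFSet.mem_range.1 hz
    exact omem.2 i.1.2
  have hc : x.card ≤ κ := by
    have := ZFSet.lift_card_range_le (f := fun i : s => i.1.1.toZFSet)
    rw [hsc, Ordinal.cof_Iio, ← Ordinal.lift_cof] at this
    refine le_trans ?_ (not_lt.1 hn)
    rwa [lift_lift, lift_le] at this
  have hu : ∀ β < γ, ∃ ξ, β ≤ ξ ∧ ξ.toZFSet ∈ x := fun β hβ => by
    obtain ⟨ξ, hξ, h⟩ := hs ⟨β, hβ⟩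
    exact ⟨ξ.1, h, ZFSet.mem_range.2 ⟨⟨ξ, hξ⟩, rfl⟩⟩
  obtain ⟨B, hB1, hB2, hB3, hB4⟩ := c.exists_chain hg hκ hδ hγ.le h1
    (fun β hβ => c.cov hg hκ hδ hκμ hF (hβ.trans hγ) (h1 β hβ)) hx hc hu
  have hB : B ⊆ (succ μ).ord.toZFSet := hB2.trans (osub hγ.le)
  obtain ⟨e, he, heX, hee⟩ := hg _ c.lam_mem B (c.sub _ (c.elem.sub c.lam_mem) _ hB) hB
    fun Z hZ hZc => by
      obtain ⟨β, hβ, hβM, h⟩ := c.bounded hZ (hZc.le.trans (hδ.trans hκμ.le))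
      have : B ∩ Z = B ∩ β.toZFSet ∩ Z := by
        ext z
        simp only [ZFSet.mem_inter]
        exact ⟨fun hz => ⟨⟨hz.1, h z hz.2 (hB hz.1)⟩, hz.2⟩, fun hz => ⟨hz.1.1, hz.2⟩⟩
      rw [this]
      exact c.inter_mem (hB4 β (h2 β hβ hβM)) hZ
  have hec := c.card_le_of_trace hκμ he (fun z hz => c.mem_lam' (heX hz)) hB3
    fun z hz h => (hee z hz).2 h
  obtain ⟨β, hβ, hβM, h⟩ := c.bounded he (hec.trans hκμ.le)
  obtain ⟨ξ, hξ, hξx⟩ := hu β (h2 β hβ hβM)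
  have : ξ.toZFSet ∈ e := (hee _ (h1 ξ (omem.1 (hx hξx)))).1 (hB1 hξx)
  exact (omem.1 (h _ this (heX this))).not_ge hξ

end Ctx

end Pool.Agent.P.MP_f5d68c_lc
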