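import Pool.Agent.P.MP_f5d68c_lc.Card

namespace Pool.Agent.P.MP_f5d68c_lc

open Cardinal Order

universe u

/-- `f` codes a function on part of `k` whose range contains `x` -/
def Sm (R : Set ZFSet.{u}) (f k x : ZFSet.{u}) : Prop :=
  (∀ z ∈ x, ∃ i ∈ k, ZFSet.pair i z ∈ f) ∧
    ∀ i ∈ k, ∀ z ∈ R, ∀ z' ∈ R, ZFSet.pair i z ∈ f → ZFSet.pair i z' ∈ f → z = z'

/-- `R` sees that `x` is not larger than `k` -/
def Le (R : Set ZFSet.{u}) (k x : ZFSet.{u}) : Prop := ∃ f ∈ R, Sm R f k x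

variable {R A M R' : Set ZFSet.{u}} {μ : Cardinal.{u}}

theorem Df.sm (hR : Tr R) (i j k : ℕ) : Df R A fun v => Sm R (v i) (v j) (v k) :=
  (Df.ball hR k (S := fun z v => ∃ a ∈ v j, ZFSet.pair a z ∈ v i)
    (Df.bex hR (j + 1) (S := fun a w => ZFSet.pair a (w 0) ∈ w (i + 1))
      (Df.pmem hR 0 1 (i + 2)))).and
  (Df.ball hR j (S := fun a v => ∀ z ∈ R, ∀ z' ∈ R,
      ZFSet.pair a z ∈ v i → ZFSet.pair a z' ∈ v i → z = z')
    (Df.all (S := fun z w => ∀ z' ∈ R,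
        ZFSet.pair (w 0) z ∈ w (i + 1) → ZFSet.pair (w 0) z' ∈ w (i + 1) → z = z')
      (Df.all (S := fun z' w => ZFSet.pair (w 1) (w 0) ∈ w (i + 2) →
          ZFSet.pair (w 1) z' ∈ w (i + 2) → w 0 = z')
        ((Df.pmem hR 2 1 (i + 3)).imp ((Df.pmem hR 2 0 (i + 3)).imp (Df.eq 1 0))))))

theorem Df.le (hR : Tr R) (j k : ℕ) : Df R A fun v => Le R (v j) (v k) :=
  Df.ex (S := fun f v => Sm R f (v j) (v k)) (Df.sm hR 0 (j + 1) (k + 1))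

theorem Le.card_le {k x : ZFSet.{u}} (h : Le R k x) (hx : ∀ z ∈ x, z ∈ R) : x.card ≤ k.card := by
  obtain ⟨f, -, h1, h2⟩ := h
  exact card_le_of_rel (fun i z => ZFSet.pair i z ∈ f) h1
    fun i hi z hz z' hz' => h2 i hi z (hx z hz) z' (hx z' hz')

/-- the closure properties of `R` and `M` used in the proofs -/
structure Ctx (M R A R' : Set ZFSet.{u}) (μ : Cardinal.{u}) : Prop where
  elem : Elem M R A
  tr : Tr R
  sub : ∀ x ∈ R, ∀ y, y ⊆ x → y ∈ R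
  rr : R' ⊆ R
  cl : ∀ x : ZFSet.{u}, x.card ≤ μ → (∀ y ∈ x, y ∈ R') → x ∈ R'
  inf : ℵ₀ ≤ μ
  kap : Kappa M (succ μ).ord

/-- index shift used for separation -/
def up : ℕ → ℕ
  | 0 => 0
  | n + 1 => n + 2

theorem Elem.sep_mem (h : Elem M R A) (htr : Tr R) (hsub : ∀ x ∈ R, ∀ y, y ⊆ x → y ∈ R)
    {S : ZFSet.{u} → (ℕ → ZFSet.{u}) → Prop}
    (hS : Df R A fun w => S (w 0) fun n => w (n + 1)) {v : ℕ → ZFSet.{u}} (hv : ∀ i, v i ∈ M)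
    (i : ℕ) : ZFSet.sep (fun x => S x v) (v i) ∈ M := by
  have hS' : Df R A fun w => S (w 0) fun n => w (n + 2) := hS.comp up
  obtain ⟨y, hy, h1, h2⟩ := h.tv
    (S := fun y v => (∀ z ∈ y, z ∈ v i ∧ S z v) ∧ ∀ z ∈ v i, S z v → z ∈ y)
    ((Df.ball htr 0 (S := fun z w => z ∈ w (i + 1) ∧ S z fun n => w (n + 1))
      ((Df.mem 0 (i + 2)).and hS')).and
      (Df.ball htr (i + 1) (S := fun z w => (S z fun n => w (n + 1)) → z ∈ w 0)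
        (hS'.imp (Df.mem 0 1)))) hv
    ⟨ZFSet.sep (fun x => S x v) (v i), hsub _ (h.sub (hv i)) _ fun z hz => (ZFSet.mem_sep.1 hz).1,
      fun z hz => ZFSet.mem_sep.1 hz, fun z hz hz' => ZFSet.mem_sep.2 ⟨hz, hz'⟩⟩
  have : ZFSet.sep (fun x => S x v) (v i) = y := by
    ext z
    rw [ZFSet.mem_sep]
    exact ⟨fun h => h2 z h.1 h.2, h1 z⟩
  rwa [this]

theorem cs_mem {x : ZFSet.{u}} {v : ℕ → ZFSet.{u}} (hx : x ∈ M) (hv : ∀ i, v i ∈ M) :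
    ∀ i, cs x v i ∈ M
  | 0 => hx
  | n + 1 => hv n

namespace Ctx

variable (c : Ctx M R A R' μ)
include c

theorem sep_mem {S : ZFSet.{u} → (ℕ → ZFSet.{u}) → Prop}
    (hS : Df R A fun w => S (w 0) fun n => w (n + 1)) {v : ℕ → ZFSet.{u}} (hv : ∀ i, v i ∈ M)
    (i : ℕ) : ZFSet.sep (fun x => S x v) (v i) ∈ M :=
  c.elem.sep_mem c.tr c.sub hS hv i

theorem inter_mem {a b : ZFSet.{u}} (ha : a ∈ M) (hb : b ∈ M) : a ∩ b ∈ M := by
  have := c.sep_mem (S := fun x v => x ∈ v 1) (Df.mem 0 2) (v := cs a fun _ => b)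
    (cs_mem ha fun _ => hb) 0
  have e : a ∩ b = ZFSet.sep (fun x => x ∈ b) a := by
    ext z
    rw [ZFSet.mem_sep, ZFSet.mem_inter]
  rw [e]
  exact this

theorem lam_mem : (succ μ).ord.toZFSet ∈ M := c.kap.1.1

omit c in
theorem card_le_of_lt {α : Ordinal.{u}} (h : α < (succ μ).ord) : α.toZFSet.card ≤ μ := by
  rw [Ordinal.card_toZFSet]
  exact lt_succ_iff.1 (lt_ord.1 h)

theorem ord_mem' {α : Ordinal.{u}} (h : α < (succ μ).ord) : α.toZFSet ∈ R' := by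
  induction α using WellFoundedLT.induction with
  | ind α ih =>
    refine c.cl _ (card_le_of_lt h) fun y hy => ?_
    obtain ⟨β, hβ, rfl⟩ := Ordinal.mem_toZFSet_iff.1 hy
    exact ih β hβ (hβ.trans h)

theorem mem_lam' {z : ZFSet.{u}} (h : z ∈ (succ μ).ord.toZFSet) : z ∈ R' := by
  obtain ⟨β, hβ, rfl⟩ := Ordinal.mem_toZFSet_iff.1 h
  exact c.ord_mem' hβ

theorem upair_mem' {a b : ZFSet.{u}} (ha : a ∈ R') (hb : b ∈ R') : ({a, b} : ZFSet.{u}) ∈ R' := by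
  refine c.cl _ (ZFSet.card_insert_le.trans ?_) fun y hy => ?_
  · rw [ZFSet.card_singleton, one_add_one_eq_two]
    exact (natCast_lt_aleph0 (n := 2)).le.trans c.inf
  · rcases ZFSet.mem_pair.1 hy with rfl | rfl <;> assumption

theorem pair_mem' {a b : ZFSet.{u}} (ha : a ∈ R') (hb : b ∈ R') : ZFSet.pair a b ∈ R' := by
  refine c.upair_mem' (c.cl _ ?_ fun y hy => ?_) (c.upair_mem' ha hb)
  · rw [ZFSet.card_singleton]
    exact one_le_aleph0.trans c.inf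
  · rwa [ZFSet.mem_singleton.1 hy]

theorem le_of_card_le {k x : ZFSet.{u}} (h : x.card ≤ k.card) (hk : k.card ≤ μ)
    (hk' : ∀ i ∈ k, i ∈ R') (hx : ∀ z ∈ x, z ∈ R') : Le R k x := by
  rw [card_le_iff, ← ZFSet.cardinalMk_coe_sort] at h
  obtain ⟨g⟩ := (le_def _ _).1 h
  have h' : x.card ≤ k.card := by rwa [card_le_iff, ← ZFSet.cardinalMk_coe_sort]
  refine ⟨ZFSet.range fun z : x => ZFSet.pair (g z).1 z.1,
    c.rr (c.cl _ ((card_range_le _).trans (h'.trans hk)) fun y hy => ?_), fun z hz => ?_,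
    fun i _ z _ z' _ h1 h2 => ?_⟩
  · obtain ⟨z, rfl⟩ := ZFSet.mem_range.1 hy
    exact c.pair_mem' (hk' _ (g z).2) (hx _ z.2)
  · exact ⟨_, (g ⟨z, hz⟩).2, ZFSet.mem_range.2 ⟨⟨z, hz⟩, rfl⟩⟩
  · obtain ⟨a, ha⟩ := ZFSet.mem_range.1 h1
    obtain ⟨b, hb⟩ := ZFSet.mem_range.1 h2
    rw [ZFSet.pair_inj] at ha hb
    rw [← ha.2, ← hb.2, g.injective (Subtype.ext (ha.1.trans hb.1.symm))]

theorem sub_of_le {k x : ZFSet.{u}} (hk : k ∈ M) (hk' : ∀ i ∈ k, i ∈ M) (hx : x ∈ M)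
    (h : Le R k x) : ∀ z ∈ x, z ∈ M := by
  intro z hz
  obtain ⟨f, hf, h1, h2⟩ := c.elem.tv (S := fun f v => Sm R f (v 0) (v 1)) (Df.sm c.tr 0 1 2)
    (v := cs k fun _ => x) (cs_mem hk fun _ => hx) h
  obtain ⟨i, hi, hp⟩ := h1 z hz
  have hzR := c.tr _ (c.elem.sub hx) _ hz
  obtain ⟨z', hz', hp'⟩ := c.elem.tv (S := fun z v => ZFSet.pair (v 0) z ∈ v 1) (Df.pmem c.tr 1 0 2)
    (v := cs i fun _ => f) (cs_mem (hk' i hi) fun _ => hf) ⟨z, hzR, hp⟩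
  rwa [h2 i hi z hzR z' (c.elem.sub hz') hp hp']

theorem sub_of_ord {α : Ordinal.{u}} (h : α < (succ μ).ord) (hα : α.toZFSet ∈ M) :
    ∀ β < α, β.toZFSet ∈ M := fun β hβ => by
  by_contra hn
  exact h.not_ge (c.kap.2 ⟨hα, β, hβ, hn⟩)

/-- `M ∩ μ⁺` is a limit ordinal `γ` with `μ < γ < μ⁺` -/
theorem exists_gamma : ∃ γ : Ordinal.{u}, γ < (succ μ).ord ∧ μ.ord < γ ∧ IsSuccLimit γ ∧
    (∀ β < γ, β.toZFSet ∈ M) ∧ ∀ β < (succ μ).ord, β.toZFSet ∈ M → β < γ := by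
  obtain ⟨β₀, hβ₀, hn₀⟩ := c.kap.1.2
  obtain ⟨γ, hγ, hmin⟩ := Ordinal.lt_wf.has_min {β : Ordinal.{u} | β.toZFSet ∉ M} ⟨β₀, hn₀⟩
  have h1 : ∀ β < γ, β.toZFSet ∈ M := fun β hβ => by
    by_contra hn
    exact hmin β hn hβ
  have hlt : γ < (succ μ).ord := (not_lt.1 (hmin β₀ hn₀)).trans_lt hβ₀
  have h2 : ∀ β < (succ μ).ord, β.toZFSet ∈ M → β < γ := fun β hβ hM => by
    rcases lt_trichotomy β γ with h | rfl | h
    · exact h
    · exact (hγ hM).elim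
    · exact (hγ (c.sub_of_ord hβ hM γ h)).elim
  have hμ : μ.ord < (succ μ).ord := ord_lt_ord.2 (lt_succ μ)
  have h3 : μ.ord < γ := by
    obtain ⟨m, hm, hml, hle⟩ := c.elem.tv (S := fun m v => m ∈ v 0 ∧ ∀ β ∈ v 0, Le R m β)
      ((Df.mem 0 1).and (Df.ball c.tr 1 (S := fun β w => Le R (w 0) β) (Df.le c.tr 1 0)))
      (v := fun _ => (succ μ).ord.toZFSet) (fun _ => c.lam_mem)
      ⟨μ.ord.toZFSet, c.rr (c.ord_mem' hμ), Ordinal.toZFSet_mem_toZFSet_iff.2 hμ, fun b hb => by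
        obtain ⟨β, hβ, rfl⟩ := Ordinal.mem_toZFSet_iff.1 hb
        refine c.le_of_card_le ?_ (card_le_of_lt hμ) (fun i hi => c.mem_lam' ?_)
          fun i hi => c.mem_lam' ?_
        · rw [Ordinal.card_toZFSet μ.ord, card_ord]
          exact card_le_of_lt hβ
        · exact Ordinal.toZFSet_subset_toZFSet_iff.2 hμ.le hi
        · exact Ordinal.toZFSet_subset_toZFSet_iff.2 hβ.le hi⟩
    obtain ⟨m, hm', rfl⟩ := Ordinal.mem_toZFSet_iff.1 hml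
    have := (hle _ (Ordinal.toZFSet_mem_toZFSet_iff.2 hμ)).card_le
      (c.tr _ (c.rr (c.ord_mem' hμ)))
    rw [Ordinal.card_toZFSet, Ordinal.card_toZFSet, card_ord] at this
    exact (ord_le.2 this).trans_lt (h2 m hm' hm)
  refine ⟨γ, hlt, h3, ⟨not_isMin_of_lt h3, isSuccPrelimit_of_succ_lt fun β hβ => ?_⟩, h1, h2⟩
  have hl := isSuccLimit_ord (c.inf.trans (le_succ μ))
  have hs := hl.succ_lt (hβ.trans hlt)
  obtain ⟨b, hb, hbl, hβb⟩ := c.elem.tv (S := fun b v => b ∈ v 0 ∧ v 1 ∈ b)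
    ((Df.mem 0 1).and (Df.mem 2 0)) (v := cs (succ μ).ord.toZFSet fun _ => β.toZFSet)
    (cs_mem c.lam_mem fun _ => h1 β hβ)
    ⟨(succ β).toZFSet, c.rr (c.ord_mem' hs), Ordinal.toZFSet_mem_toZFSet_iff.2 hs,
      Ordinal.toZFSet_mem_toZFSet_iff.2 (lt_succ β)⟩
  obtain ⟨b, hb', rfl⟩ := Ordinal.mem_toZFSet_iff.1 hbl
  exact (succ_le_of_lt (Ordinal.toZFSet_mem_toZFSet_iff.1 hβb)).trans_lt (h2 b hb' hb)

/-- a set in `M` of size at most `μ` is bounded in `μ⁺` by an ordinal of `M` -/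
theorem bounded {Z : ZFSet.{u}} (hZ : Z ∈ M) (hc : Z.card ≤ μ) : ∃ β < (succ μ).ord,
    β.toZFSet ∈ M ∧ ∀ z ∈ Z, z ∈ (succ μ).ord.toZFSet → z ∈ β.toZFSet := by
  have hl := isSuccLimit_ord (c.inf.trans (le_succ μ))
  obtain ⟨b, hb, hgb⟩ := exists_bound (s := Z ∩ (succ μ).ord.toZFSet) (a := (succ μ).ord)
    (by
      rw [(isRegular_succ c.inf).cof_ord]
      exact lt_succ_of_le ((ZFSet.card_mono fun z hz => (ZFSet.mem_inter.1 hz).1).trans hc))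
    (fun z _ => z.rank) fun z hz => by
      obtain ⟨β, hβ, rfl⟩ := Ordinal.mem_toZFSet_iff.1 (ZFSet.mem_inter.1 hz).2
      rwa [Ordinal.rank_toZFSet]
  have hs := hl.succ_lt hb
  obtain ⟨b, hb, hbl, h⟩ := c.elem.tv (S := fun b v => b ∈ v 0 ∧ ∀ z ∈ v 1, z ∈ v 0 → z ∈ b)
    ((Df.mem 0 1).and (Df.ball c.tr 2 (S := fun z w => z ∈ w 1 → z ∈ w 0)
      ((Df.mem 0 2).imp (Df.mem 0 1)))) (v := cs (succ μ).ord.toZFSet fun _ => Z)
    (cs_mem c.lam_mem fun _ => hZ)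
    ⟨(succ b).toZFSet, c.rr (c.ord_mem' hs), Ordinal.toZFSet_mem_toZFSet_iff.2 hs, fun z hz hz' => by
      have := hgb z (ZFSet.mem_inter.2 ⟨hz, hz'⟩)
      obtain ⟨β, -, rfl⟩ := Ordinal.mem_toZFSet_iff.1 hz'
      rw [Ordinal.rank_toZFSet] at this
      exact Ordinal.toZFSet_mem_toZFSet_iff.2 (lt_succ_of_le this)⟩
  obtain ⟨b, hb', rfl⟩ := Ordinal.mem_toZFSet_iff.1 hbl
  exact ⟨b, hb', hb, h⟩

theorem ord_mem {ν : Cardinal.{u}} (h : ν ≤ μ) : ν.ord.toZFSet ∈ M ∧ ν.ord < (succ μ).ord := by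
  obtain ⟨γ, h1, h2, -, h3, -⟩ := c.exists_gamma
  have := (ord_le_ord.2 h).trans_lt h2
  exact ⟨h3 _ this, this.trans h1⟩

theorem le_ord {ν : Cardinal.{u}} (h : ν ≤ μ) {x : ZFSet.{u}} (hx : ∀ z ∈ x, z ∈ R') :
    Le R ν.ord.toZFSet x ↔ x.card ≤ ν := by
  have e : ν.ord.toZFSet.card = ν := by rw [Ordinal.card_toZFSet, card_ord]
  refine ⟨fun hl => e ▸ hl.card_le fun z hz => c.rr (hx z hz), fun hc => ?_⟩
  exact c.le_of_card_le (e.symm ▸ hc) (e.symm ▸ h) (fun i hi => c.mem_lam'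
    (Ordinal.toZFSet_subset_toZFSet_iff.2 (c.ord_mem h).2.le hi)) hx

theorem sub_of_card_le {x : ZFSet.{u}} (hM : x ∈ M) (hx : ∀ z ∈ x, z ∈ R') (hc : x.card ≤ μ) :
    ∀ z ∈ x, z ∈ M := by
  refine c.sub_of_le (c.ord_mem le_rfl).1 (fun i hi => ?_) hM ((c.le_ord le_rfl hx).2 hc)
  obtain ⟨β, hβ, rfl⟩ := Ordinal.mem_toZFSet_iff.1 hi
  exact c.sub_of_ord (c.ord_mem le_rfl).2 (c.ord_mem le_rfl).1 β hβ

/-- a set in `M` with a small trace on `M` is small -/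
theorem card_le_of_trace {κ : Cardinal.{u}} (hκ : κ < μ) {e y : ZFSet.{u}} (hM : e ∈ M)
    (he : ∀ z ∈ e, z ∈ R') (hy : y.card ≤ κ) (h : ∀ z ∈ M, z ∈ e → z ∈ y) : e.card ≤ κ := by
  by_contra hn
  have hs : succ κ ≤ μ := succ_le_of_lt hκ
  obtain ⟨e', he', hc⟩ := exists_subset_card (succ_le_of_lt (not_le.1 hn))
  obtain ⟨e', hM', he', h1, h2⟩ := c.elem.tv
    (S := fun x v => x ⊆ v 0 ∧ ¬ Le R (v 1) x ∧ Le R (v 2) x)
    ((Df.sub c.tr 0 1).and ((Df.le c.tr 2 0).not.and (Df.le c.tr 3 0)))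
    (v := cs e (cs κ.ord.toZFSet fun _ => μ.ord.toZFSet))
    (cs_mem hM (cs_mem (c.ord_mem hκ.le).1 fun _ => (c.ord_mem le_rfl).1))
    ⟨e', c.sub _ (c.elem.sub hM) _ he', he',
      fun hl => ((c.le_ord hκ.le fun z hz => he z (he' hz)).1 hl).not_gt (hc ▸ lt_succ κ),
      (c.le_ord le_rfl fun z hz => he z (he' hz)).2 (hc ▸ hs)⟩
  have he'' : ∀ z ∈ e', z ∈ R' := fun z hz => he z (he' hz)
  refine h1 ((c.le_ord hκ.le he'').2 ((ZFSet.card_mono fun z hz => ?_).trans hy))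
  exact h z (c.sub_of_card_le hM' he'' ((c.le_ord le_rfl he'').1 h2) z hz) (he' hz)

end Ctx

end Pool.Agent.P.MP_f5d68c_lc
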