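import Mathlib

namespace Pool.Agent.P.MP_f5d68c_lc

universe u

/-- relation symbols: membership (binary) and one unary predicate -/
inductive Rel : ℕ → Type
  | mem : Rel 2
  | pred : Rel 1

/-- the language of the structures `(R, ∈, A)` -/
def lang : FirstOrder.Language.{0, 0} := ⟨fun _ => Empty, Rel⟩

/-- the structure `(R, ∈, A)` -/
abbrev str (R A : Set ZFSet.{u}) : lang.Structure R where
  funMap f := f.elim
  RelMap
    | .mem => fun v => (v 0).1 ∈ (v 1).1
    | .pred => fun v => (v 0).1 ∈ A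

/-- `M` is an elementary substructure of `(R, ∈, A)`: the inclusion is an elementary embedding -/
def Elem (M R A : Set ZFSet.{u}) : Prop :=
  ∃ j : @FirstOrder.Language.ElementaryEmbedding lang M R (str M A) (str R A), ∀ x : M, (j x).1 = x.1

/-- `H θ`: the sets contained in a transitive set of size `< θ` -/
def H (θ : Cardinal.{u}) : Set ZFSet.{u} :=
  {x | ∃ t : ZFSet.{u}, t.IsTransitive ∧ x ⊆ t ∧ t.card < θ}

/-- `κ` is `κ_M`, the least ordinal in `M` that is not a subset of `M` -/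
def Kappa (M : Set ZFSet.{u}) (κ : Ordinal.{u}) : Prop :=
  IsLeast {α : Ordinal.{u} | α.toZFSet ∈ M ∧ ∃ β < α, β.toZFSet ∉ M} κ

/-- `d` is `(δ, M)`-approximated -/
def Approx (δ : Cardinal.{u}) (M : Set ZFSet.{u}) (d : ZFSet.{u}) : Prop :=
  ∀ Z ∈ M, Z.card < δ → d ∩ Z ∈ M

/-- the subset `d` of `X` is `M`-guessed -/
def Guessed (M : Set ZFSet.{u}) (X d : ZFSet.{u}) : Prop :=
  ∃ e ∈ M, e ⊆ X ∧ ∀ z ∈ M, z ∈ d ↔ z ∈ e

/-- `M` is `δ`-guessing (as a substructure of `R`) -/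
def Guessing (δ : Cardinal.{u}) (M R : Set ZFSet.{u}) : Prop :=
  ∀ X ∈ M, ∀ d ∈ R, d ⊆ X → Approx δ M d → Guessed M X d

end Pool.Agent.P.MP_f5d68c_lc
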