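import Pool.Agent.P.MP_f5d68c_lc.Defs

namespace Pool.Agent.P.MP_f5d68c_lc

open FirstOrder FirstOrder.Language

universe u

/-- put a new value in front of a valuation -/
def cs {T : Type*} (x : T) (v : ℕ → T) : ℕ → T
  | 0 => x
  | n + 1 => v n

@[simp] theorem cs_zero {T : Type*} (x : T) (v : ℕ → T) : cs x v 0 = x := rfl
@[simp] theorem cs_succ {T : Type*} (x : T) (v : ℕ → T) (n : ℕ) : cs x v (n + 1) = v n := rfl

/-- the predicate `P` on valuations is expressed in `(R, ∈, A)` by a formula -/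
def Df (R A : Set ZFSet.{u}) (P : (ℕ → ZFSet.{u}) → Prop) : Prop :=
  ∃ φ : lang.Formula ℕ, ∀ v : ℕ → R, @Formula.Realize lang R (str R A) ℕ φ v ↔ P fun i => (v i).1

variable {R A M : Set ZFSet.{u}} {P Q : (ℕ → ZFSet.{u}) → Prop}

theorem Df.congr (h : Df R A P) (h' : ∀ v : ℕ → ZFSet.{u}, (∀ i, v i ∈ R) → (P v ↔ Q v)) :
    Df R A Q := by
  obtain ⟨φ, h⟩ := h
  exact ⟨φ, fun v => (h v).trans (h' _ fun i => (v i).2)⟩

theorem Df.mem (i j : ℕ) : Df R A fun v => v i ∈ v j := by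
  let _ := str R A
  refine ⟨Relations.formula₂ (L := lang) Rel.mem (Term.var i) (Term.var j), fun v => ?_⟩
  rw [Formula.realize_rel₂]
  rfl

theorem Df.eq (i j : ℕ) : Df R A fun v => v i = v j := by
  let _ := str R A
  refine ⟨Term.equal (Term.var i) (Term.var j), fun v => ?_⟩
  rw [Formula.realize_equal]
  exact Subtype.ext_iff

theorem Df.not (h : Df R A P) : Df R A fun v => ¬ P v := by
  let _ := str R A
  obtain ⟨φ, h⟩ := h
  exact ⟨φ.not, fun v => by rw [Formula.realize_not, h]⟩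

theorem Df.and (h : Df R A P) (h' : Df R A Q) : Df R A fun v => P v ∧ Q v := by
  let _ := str R A
  obtain ⟨φ, h⟩ := h
  obtain ⟨ψ, h'⟩ := h'
  exact ⟨φ ⊓ ψ, fun v => by rw [Formula.realize_inf, h, h']⟩

theorem Df.or (h : Df R A P) (h' : Df R A Q) : Df R A fun v => P v ∨ Q v := by
  let _ := str R A
  obtain ⟨φ, h⟩ := h
  obtain ⟨ψ, h'⟩ := h'
  exact ⟨φ ⊔ ψ, fun v => by rw [Formula.realize_sup, h, h']⟩

theorem Df.imp (h : Df R A P) (h' : Df R A Q) : Df R A fun v => P v → Q v := by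
  let _ := str R A
  obtain ⟨φ, h⟩ := h
  obtain ⟨ψ, h'⟩ := h'
  exact ⟨φ.imp ψ, fun v => by rw [Formula.realize_imp, h, h']⟩

theorem Df.iff (h : Df R A P) (h' : Df R A Q) : Df R A fun v => P v ↔ Q v :=
  ((h.imp h').and (h'.imp h)).congr fun _ _ => iff_def.symm

theorem Df.comp (h : Df R A P) (g : ℕ → ℕ) : Df R A fun v => P fun i => v (g i) := by
  let _ := str R A
  obtain ⟨φ, h⟩ := h
  exact ⟨φ.relabel g, fun v => by rw [Formula.realize_relabel, h]; rfl⟩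

/-- variable `0` becomes the bound variable -/
def sh : ℕ → ℕ ⊕ Fin 1
  | 0 => Sum.inr 0
  | n + 1 => Sum.inl n

theorem realize_ex_sh {N : Type*} [lang.Structure N] (φ : lang.Formula ℕ) (v : ℕ → N) :
    Formula.Realize (BoundedFormula.ex (BoundedFormula.relabel sh φ)) v ↔
      ∃ x : N, φ.Realize (cs x v) := by
  rw [Formula.Realize, BoundedFormula.realize_ex]
  refine exists_congr fun x => ?_
  rw [BoundedFormula.realize_relabel, Formula.Realize]
  refine iff_of_eq (congr (congrArg _ ?_) (Subsingleton.elim _ _))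
  funext i
  cases i <;> rfl

theorem val_cs (x : R) (v : ℕ → R) : (fun i => (cs x v i).1) = cs x.1 fun i => (v i).1 := by
  funext i
  cases i <;> rfl

theorem Df.ex {S : ZFSet.{u} → (ℕ → ZFSet.{u}) → Prop}
    (h : Df R A fun w => S (w 0) fun n => w (n + 1)) : Df R A fun v => ∃ x ∈ R, S x v := by
  let _ := str R A
  obtain ⟨φ, h⟩ := h
  refine ⟨BoundedFormula.ex (BoundedFormula.relabel sh φ), fun v => ?_⟩
  rw [realize_ex_sh]
  constructor
  · rintro ⟨x, hx⟩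
    exact ⟨x.1, x.2, (h _).1 hx⟩
  · rintro ⟨x, hx, hS⟩
    exact ⟨⟨x, hx⟩, (h _).2 hS⟩

theorem Df.all {S : ZFSet.{u} → (ℕ → ZFSet.{u}) → Prop}
    (h : Df R A fun w => S (w 0) fun n => w (n + 1)) : Df R A fun v => ∀ x ∈ R, S x v :=
  (Df.ex (S := fun x v => ¬ S x v) h.not).not.congr fun _ _ => by push Not; rfl

/-- `R` is transitive -/
def Tr (R : Set ZFSet.{u}) : Prop := ∀ x ∈ R, ∀ y ∈ x, y ∈ R

theorem Df.bex (hR : Tr R) (i : ℕ) {S : ZFSet.{u} → (ℕ → ZFSet.{u}) → Prop}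
    (h : Df R A fun w => S (w 0) fun n => w (n + 1)) : Df R A fun v => ∃ x ∈ v i, S x v :=
  (Df.ex (S := fun x v => x ∈ v i ∧ S x v) ((Df.mem 0 (i + 1)).and h)).congr fun _ hv =>
    ⟨fun ⟨x, _, h⟩ => ⟨x, h⟩, fun ⟨x, h⟩ => ⟨x, hR _ (hv i) _ h.1, h⟩⟩

theorem Df.ball (hR : Tr R) (i : ℕ) {S : ZFSet.{u} → (ℕ → ZFSet.{u}) → Prop}
    (h : Df R A fun w => S (w 0) fun n => w (n + 1)) : Df R A fun v => ∀ x ∈ v i, S x v :=
  (Df.bex hR i (S := fun x v => ¬ S x v) h.not).not.congr fun _ _ => by push Not; rfl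

theorem Df.sub (hR : Tr R) (i j : ℕ) : Df R A fun v => v i ⊆ v j :=
  (Df.ball hR i (S := fun x v => x ∈ v j) (Df.mem 0 (j + 1))).congr fun _ _ => Iff.rfl

theorem Df.upair (hR : Tr R) (i j k : ℕ) : Df R A fun v => v i = {v j, v k} := by
  refine ((Df.ball hR i (S := fun x v => x = v j ∨ x = v k)
    ((Df.eq 0 (j + 1)).or (Df.eq 0 (k + 1)))).and ((Df.mem j i).and (Df.mem k i))).congr
    fun v _ => ⟨fun h => ?_, fun h => ?_⟩
  · ext z
    rw [ZFSet.mem_pair]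
    exact ⟨h.1 z, fun hz => hz.elim (fun e => e ▸ h.2.1) fun e => e ▸ h.2.2⟩
  · rw [h]
    simp

theorem Df.pair (hR : Tr R) (i j k : ℕ) : Df R A fun v => v i = ZFSet.pair (v j) (v k) := by
  refine (Df.bex hR i (S := fun a v => ∃ b ∈ v i, a = {v j, v j} ∧ b = {v j, v k} ∧ v i = {a, b})
    (Df.bex hR (i + 1) (S := fun b w => w 0 = {w (j + 1), w (j + 1)} ∧
      b = {w (j + 1), w (k + 1)} ∧ w (i + 1) = {w 0, b})
      ((Df.upair hR 1 (j + 2) (j + 2)).and ((Df.upair hR 0 (j + 2) (k + 2)).and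
        (Df.upair hR (i + 2) 1 0))))).congr fun v _ => ⟨?_, fun h => ?_⟩
  · rintro ⟨a, -, b, -, rfl, rfl, h⟩
    rw [h, ZFSet.pair]
    congr 1
    ext z
    simp
  · refine ⟨{v j, v j}, ?_, {v j, v k}, ?_, rfl, rfl, ?_⟩
    · rw [h, ZFSet.pair, ZFSet.mem_pair]
      left
      ext z
      simp
    · rw [h, ZFSet.pair, ZFSet.mem_pair]
      exact Or.inr rfl
    · rw [h, ZFSet.pair]
      congr 1
      ext z
      simp

theorem Df.pmem (hR : Tr R) (i j k : ℕ) : Df R A fun v => ZFSet.pair (v i) (v j) ∈ v k :=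
  (Df.bex hR k (S := fun p v => p = ZFSet.pair (v i) (v j))
    (Df.pair hR 0 (i + 1) (j + 1))).congr fun _ _ =>
      ⟨fun ⟨_, h, e⟩ => e ▸ h, fun h => ⟨_, h, rfl⟩⟩

theorem Elem.sub (h : Elem M R A) : M ⊆ R := fun x hx => by
  obtain ⟨j, hj⟩ := h
  have := (j ⟨x, hx⟩).2
  rwa [hj] at this

/-- the Tarski-Vaught property -/
theorem Elem.tv (h : Elem M R A) {S : ZFSet.{u} → (ℕ → ZFSet.{u}) → Prop}
    (hS : Df R A fun w => S (w 0) fun n => w (n + 1)) {v : ℕ → ZFSet.{u}} (hv : ∀ i, v i ∈ M)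
    (hx : ∃ x ∈ R, S x v) : ∃ x ∈ M, S x v := by
  let _ := str R A
  let _ := str M A
  obtain ⟨j, hj⟩ := h
  obtain ⟨φ, hφ⟩ := hS
  obtain ⟨x, hx, hS⟩ := hx
  let v' : ℕ → M := fun i => ⟨v i, hv i⟩
  have e : (fun i => ((j ∘ v') i).1) = v := funext fun i => hj _
  have h1 : Formula.Realize (BoundedFormula.ex (BoundedFormula.relabel sh φ)) (j ∘ v') := by
    rw [realize_ex_sh]
    refine ⟨⟨x, hx⟩, (hφ _).2 ?_⟩
    show S x fun i => ((j ∘ v') i).1
    rwa [e]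
  rw [j.map_formula, realize_ex_sh] at h1
  obtain ⟨y, hy⟩ := h1
  rw [← j.map_formula, hφ] at hy
  refine ⟨y.1, y.2, ?_⟩
  have e' : (fun n => ((j ∘ cs y v') (n + 1)).1) = v := funext fun i => hj _
  have e0 : ((j ∘ cs y v') 0).1 = y.1 := hj _
  rw [← e', ← e0]
  exact hy

end Pool.Agent.P.MP_f5d68c_lc
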