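import Pool.Agent.P.MP_f5d68c_lc.Cover

namespace Pool.Agent.P.MP_f5d68c_lc

open Cardinal Order

universe u

variable {R A M : Set ZFSet.{u}} {μ δ θ : Cardinal.{u}}

theorem H_tr : Tr (H θ) := fun _ ⟨t, ht, hx, hc⟩ _ hy => ⟨t, ht, ht.subset_of_mem (hx hy), hc⟩

theorem H_sub : ∀ x ∈ H θ, ∀ y, y ⊆ x → y ∈ H θ :=
  fun _ ⟨t, ht, hx, hc⟩ _ hy => ⟨t, ht, hy.trans hx, hc⟩

theorem card_lt_of_mem_H {x : ZFSet.{u}} (h : x ∈ H θ) : x.card < θ := by
  obtain ⟨t, -, hx, hc⟩ := h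
  exact (ZFSet.card_mono hx).trans_lt hc

theorem H_cl (hθ : θ.IsRegular) {x : ZFSet.{u}} (hc : x.card < θ) (h : ∀ y ∈ x, y ∈ H θ) :
    x ∈ H θ := by
  choose t ht hy htc using h
  let f : Shrink.{u} x → ZFSet.{u} := fun i => t _ ((equivShrink x).symm i).2
  have hf : ∀ y hy, t y hy ⊆ ZFSet.iUnion f := fun y hy z hz =>
    ZFSet.mem_iUnion.2 ⟨equivShrink x ⟨y, hy⟩, by simpa [f] using hz⟩
  refine ⟨x ∪ ZFSet.iUnion f, fun y h z hz => ZFSet.mem_union.2 (Or.inr ?_),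
    fun z hz => ZFSet.mem_union.2 (Or.inl hz), ZFSet.card_union_le.trans_lt
      (add_lt_of_lt hθ.aleph0_le hc ?_)⟩
  · rcases ZFSet.mem_union.1 h with h | h
    · exact hf y h (hy y h hz)
    · exact (ZFSet.IsTransitive.iUnion fun i => ht _ _).subset_of_mem h hz
  · have := ZFSet.lift_card_iUnion_le_sum_card (f := f)
    rw [lift_id] at this
    exact this.trans_lt (sum_lt_of_isRegular hθ hc fun i => htc _ _)

theorem H_pair (hθ : θ.IsRegular) {a b : ZFSet.{u}} (ha : a ∈ H θ) (hb : b ∈ H θ) :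
    ZFSet.pair a b ∈ H θ := by
  have h2 : ∀ a ∈ H θ, ∀ b ∈ H θ, ({a, b} : ZFSet.{u}) ∈ H θ := fun a ha b hb => by
    refine H_cl hθ (ZFSet.card_insert_le.trans_lt ?_) fun y hy => ?_
    · rw [ZFSet.card_singleton, one_add_one_eq_two]
      exact (natCast_lt_aleph0 (n := 2)).trans_le hθ.aleph0_le
    · rcases ZFSet.mem_pair.1 hy with rfl | rfl <;> assumption
  refine h2 _ (H_cl hθ ?_ fun y hy => ?_) _ (h2 _ ha _ hb)
  · rw [ZFSet.card_singleton]
    exact one_lt_aleph0.trans_le hθ.aleph0_le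
  · rwa [ZFSet.mem_singleton.1 hy]

theorem card_prod_le (x y : ZFSet.{u}) : (x.prod y).card ≤ x.card * y.card := by
  have h := ZFSet.lift_card_range_le (f := fun p : x × y => ZFSet.pair p.1.1 p.2.1)
  rw [mk_prod, ZFSet.cardinalMk_coe_sort, ZFSet.cardinalMk_coe_sort] at h
  refine le_trans (ZFSet.card_mono fun z hz => ?_) (lift_le.{u + 1}.1 (h.trans (by simp)))
  obtain ⟨a, ha, b, hb, rfl⟩ := ZFSet.mem_prod.1 hz
  exact ZFSet.mem_range.2 ⟨(⟨a, ha⟩, ⟨b, hb⟩), rfl⟩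

theorem H_prod (hθ : θ.IsRegular) {x y : ZFSet.{u}} (hx : x ∈ H θ) (hy : y ∈ H θ) :
    x.prod y ∈ H θ := by
  refine H_cl hθ ((card_prod_le x y).trans_lt
    (mul_lt_of_lt hθ.aleph0_le (card_lt_of_mem_H hx) (card_lt_of_mem_H hy))) fun z hz => ?_
  obtain ⟨a, ha, b, hb, rfl⟩ := ZFSet.mem_prod.1 hz
  exact H_pair hθ (H_tr _ hx _ ha) (H_tr _ hy _ hb)

theorem ctx_H (hθ : θ.IsRegular) (hM : Elem M (H θ) A) (hμ : ℵ₀ ≤ μ)
    (hk : Kappa M (succ μ).ord) : Ctx M (H θ) A (H θ) μ where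
  elem := hM
  tr := H_tr
  sub := H_sub
  rr := subset_rfl
  cl x hc h := by
    have := card_lt_of_mem_H (hM.sub hk.1.1)
    rw [Ordinal.card_toZFSet, card_ord] at this
    exact H_cl hθ (hc.trans_lt ((lt_succ μ).trans this)) h
  inf := hμ
  kap := hk

theorem ctx_V {ζ : Ordinal.{u}} (hM : Elem M (ZFSet.vonNeumann ζ) A) (hμ : ℵ₀ ≤ μ)
    (hk : Kappa M (succ μ).ord) :
    Ctx M (ZFSet.vonNeumann ζ) A (ZFSet.vonNeumann (succ μ).ord) μ where
  elem := hM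
  tr _ hx _ hy := (ZFSet.isTransitive_vonNeumann ζ).subset_of_mem hx hy
  sub _ hx _ hy := ZFSet.mem_vonNeumann_of_subset hy hx
  rr := by
    have := ZFSet.mem_vonNeumann.1 (hM.sub hk.1.1)
    rw [Ordinal.rank_toZFSet] at this
    exact ZFSet.vonNeumann_subset_of_le this.le
  cl x hc h := by
    obtain ⟨b, hb, h'⟩ := exists_bound (s := x) (a := (succ μ).ord)
      (by rw [(isRegular_succ hμ).cof_ord]; exact lt_succ_of_le hc) (fun z _ => z.rank)
      fun z hz => ZFSet.mem_vonNeumann.1 (h z hz)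
    refine ZFSet.mem_vonNeumann.2 (lt_of_le_of_lt (ZFSet.rank_le_iff.2 fun y hy => ?_)
      ((isSuccLimit_ord (hμ.trans (le_succ μ))).succ_lt hb))
    exact lt_succ_of_le (h' y hy)
  inf := hμ
  kap := hk

theorem Ctx.regular {R' : Set ZFSet.{u}} (c : Ctx M R A R' μ) (hg : Guessing δ M R) (hδ : δ < μ)
    (hF : ∀ α < (succ μ).ord, ∀ F : ZFSet.{u}, (∀ B ∈ F, B ⊆ α.toZFSet ∧ B ∈ M) →
      F ∈ R ∧ F.prod F ∈ R) : μ.IsRegular := by
  by_contra hn
  obtain ⟨γ, h1, -, hl, h2, h3⟩ := c.exists_gamma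
  have hc : γ.cof < μ := lt_of_le_of_ne ((Ordinal.cof_le_card γ).trans
    (lt_succ_iff.1 (lt_ord.1 h1))) fun e => hn (e ▸ isRegular_cof hl)
  have h0 : ℵ₀ ≤ max δ γ.cof := (isRegular_cof hl).aleph0_le.trans (le_max_right _ _)
  have hr := isRegular_succ h0
  have hlt : succ (max δ γ.cof) < μ :=
    lt_of_le_of_ne (succ_le_of_lt (max_lt hδ hc)) fun e => hn (e ▸ hr)
  exact (c.lt_cof hg hr ((le_max_left _ _).trans (le_succ _)) hlt hF h1 h2 h3).not_ge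
    ((le_max_right _ _).trans (le_succ _))

theorem regular_V {ζ : Ordinal.{u}} (hM : Elem M (ZFSet.vonNeumann ζ) A) (hμ : ℵ₀ ≤ μ)
    (hk : Kappa M (succ μ).ord) (hδ : δ < μ) (hg : Guessing δ M (ZFSet.vonNeumann ζ)) :
    μ.IsRegular := by
  have c := ctx_V hM hμ hk
  refine c.regular hg hδ fun α hα F hF => ?_
  have hl := isSuccLimit_ord (hμ.trans (le_succ μ))
  have h1 : F.rank < (succ μ).ord := by
    refine lt_of_le_of_lt (ZFSet.rank_mono (y := α.toZFSet.powerset) fun B hB =>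
      ZFSet.mem_powerset.2 (hF B hB).1) ?_
    rw [ZFSet.rank_powerset, Ordinal.rank_toZFSet]
    exact hl.succ_lt hα
  refine ⟨c.rr (ZFSet.mem_vonNeumann.2 h1), c.rr (ZFSet.mem_vonNeumann.2 ?_)⟩
  refine lt_of_le_of_lt (ZFSet.rank_mono (y := F.powerset.powerset) fun z hz => ?_) ?_
  · obtain ⟨a, ha, b, hb, rfl⟩ := ZFSet.mem_prod.1 hz
    refine ZFSet.mem_powerset.2 fun s hs => ZFSet.mem_powerset.2 fun t ht => ?_
    rcases ZFSet.mem_pair.1 hs with rfl | rfl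
    · rwa [ZFSet.mem_singleton.1 ht]
    · rcases ZFSet.mem_pair.1 ht with rfl | rfl <;> assumption
  · rw [ZFSet.rank_powerset, ZFSet.rank_powerset]
    exact hl.succ_lt (hl.succ_lt h1)

theorem regular_H (hθ : θ.IsRegular) (hs : #M < lift.{u + 1} θ ∨ 2 ^ μ < θ) (hM : Elem M (H θ) A)
    (hμ : ℵ₀ ≤ μ) (hk : Kappa M (succ μ).ord) (hδ : δ < μ) (hg : Guessing δ M (H θ)) :
    μ.IsRegular := by
  refine (ctx_H hθ hM hμ hk).regular hg hδ fun α hα F hF => ?_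
  have : F ∈ H θ := by
    refine H_cl hθ ?_ fun B hB => hM.sub (hF B hB).2
    rcases hs with hs | hs
    · rw [← lift_lt.{u, u + 1}, ← ZFSet.cardinalMk_coe_sort]
      exact (mk_le_mk_of_subset (s := (F : Set ZFSet.{u})) fun B hB => (hF B hB).2).trans_lt hs
    · refine lt_of_le_of_lt ((ZFSet.card_mono (y := α.toZFSet.powerset) fun B hB =>
        ZFSet.mem_powerset.2 (hF B hB).1).trans ?_) hs
      rw [ZFSet.card_powerset]
      exact power_le_power_left two_ne_zero (Ctx.card_le_of_lt hα)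
  exact ⟨this, H_prod hθ this this⟩

end Pool.Agent.P.MP_f5d68c_lc
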